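import Mathlib
import Pool.Agent.GrothDefs
import Pool.Agent.GrothEx

set_option autoImplicit false

namespace Pool.Agent.Results.MP_590c78_gt.PerfectPreimage

open Pool.Agent.Groth

/-- `X` is weakly Grothendieck: `C_p(X)` is a g-space. -/
def WeaklyGrothendieck (X : Type) [TopologicalSpace X] : Prop := GSpace (Cp X)

/-- `f` is a perfect map: continuous, closed, surjective, with compact fibres. -/
def IsPerfect {X Y : Type} [TopologicalSpace X] [TopologicalSpace Y] (f : X → Y) : Prop :=
  Continuous f ∧ IsClosedMap f ∧ Function.Surjective f ∧ ∀ y : Y, IsCompact (f ⁻¹' {y})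

/-- There is a perfect map from a Tychonoff space that is not weakly Grothendieck onto a
Grothendieck Tychonoff space. -/
theorem result : ∃ (X Y : Type) (_ : TopologicalSpace X) (_ : TopologicalSpace Y) (f : X → Y),
    T35Space X ∧ T35Space Y ∧ IsPerfect f ∧ Grothendieck Y ∧ ¬ WeaklyGrothendieck X :=
  ⟨Ex.X, Ex.Y, inferInstance, inferInstance, Ex.f, Ex.t35_sum, inferInstance,
    ⟨Ex.f_cont, Ex.f_closed, Ex.f_surj, Ex.f_fib⟩, Ex.Y_good, Ex.X_bad⟩

end Pool.Agent.Results.MP_590c78_gt.PerfectPreimage
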